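import Pool.Agent.W812.RB.Stm
import Pool.Agent.H309R2.AP3.Good

/-! # A certificate gives a block density (RB-BLOCK) -/

set_option autoImplicit false

namespace Pool.Agent.W338.RB

open Finset
open Pool.Agent.H309R2.AP3 (opK opZ opY opKZ kz Cert kz_grow kz1_pos kz2_pos3)
open Pool.Agent.W812.RB

theorem cert_grow {H : ℕ} {t nu k z : ℕ → ℕ} {Rn Rd C : ℕ} (hH : 2 ≤ H)
    (h : Cert H t nu k z Rn Rd C) :
    1 ≤ C ∧ ∃ i, ∀ m, Rn ^ m ≤ Rd ^ m * C * (kz H t nu (3 + m)).1 i := by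
  have hgrow := kz_grow (H := H) (t := t) (nu := nu) (w := (k, z)) (Rn := Rn) (Rd := Rd)
    (C := C) (n0 := 3) (fun i => h.h1 i) (fun j => by
      simp only [opKZ]
      split_ifs with hj
      · rcases Nat.lt_or_ge j H with h5 | h5
        · rw [h.hz0 j h5]
          have : j - H = 0 := by omega
          rw [this]
          exact h.h2 0 (by omega)
        · have e1 : z j = z (H + (j - H)) := by congr 1; omega
          rw [e1]
          exact h.h2 (j - H) (by omega)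
      · have e1 : z j = z (2 * H + (j - 2 * H)) := by congr 1; omega
        rw [e1]
        exact h.h3 (j - 2 * H) (by omega))
    (fun i => by
      simp only
      rcases Nat.eq_zero_or_pos i with h5 | h5
      · rw [h5, h.hk0]; exact Nat.zero_le _
      · calc k i ≤ C * 1 := by rw [mul_one]; exact h.hkC i
          _ ≤ C * (kz H t nu 3).1 i := Nat.mul_le_mul_left _ (kz1_pos hH h.ht1 3 i h5))
    (fun j => by
      simp only
      rcases Nat.lt_or_ge j (3 * H) with h5 | h5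
      · calc z j ≤ C * 1 := by rw [mul_one]; exact h.hzC j
          _ ≤ C * (kz H t nu 3).2 j :=
            Nat.mul_le_mul_left _ (kz2_pos3 hH h.ht1 h.hn0 h.hn1 h.hn2 j h5)
      · rw [h.hz3 j h5]; exact Nat.zero_le _)
  obtain ⟨i, hi⟩ := h.hk1
  refine ⟨hi.trans (h.hkC i), i, fun m => ?_⟩
  obtain ⟨hg, -⟩ := hgrow m
  have hg' := hg i
  simp only at hg'
  calc Rn ^ m = Rn ^ m * 1 := (mul_one _).symm
    _ ≤ Rn ^ m * k i := Nat.mul_le_mul_left _ hi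
    _ ≤ _ := hg'

theorem lt_smul (a : ℕ) {b : ℕ} (hb : 0 < b) : a < (a / b + 1) * b := by
  have := Nat.lt_mul_div_succ a hb
  rwa [mul_comm] at this

theorem pot_mono {G : Type*} [AddCommGroup G] {S : Finset G} {B B' : ℕ} (h : Pot S B)
    (hB : B ≤ B') : Pot S B' := by
  obtain ⟨g, h1, h2⟩ := h
  exact ⟨g, fun x hx => (h1 x hx).trans hB, h2⟩

theorem base (H : ℕ) (t nu : ℕ → ℕ) : HasFam H t nu 0 1 0 1 := by
  have hs : ∀ S : Finset (ZMod 1), Pot S 0 := fun S =>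
    ⟨fun _ => 0, fun x _ => le_rfl, fun x _ z _ y _ _ hxz => absurd (Subsingleton.elim x z) hxz⟩
  refine ⟨⟨fun i => if 1 ≤ i then univ else ∅, fun _ => ∅, fun i => hs _, fun j => hs _,
    fun i₁ i₂ j _ x _ z _ => Finset.notMem_empty _⟩, fun i => ?_, fun j => ?_⟩
  · simp only [kz]
    split_ifs with h
    · simp
    · simp
  · simp [kz]

theorem par_exists (H : ℕ) (hH : 2 ≤ H) (ε : ℝ) (hε : 0 < ε) (hε1 : ε < 1) :
    ∃ p₀ D : ℕ, ∀ p : ℕ, Odd p → p₀ ≤ p → ∃ q e r L : ℕ, p + 1 = 2 * (H * q + e) ∧ r + L ≤ q ∧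
      1 ≤ L ∧ p ≤ D * L ∧ (1 - ε) / (2 * H) * p ≤ (r : ℝ) := by
  obtain ⟨T, hT⟩ : ∃ T : ℕ, T = ⌈2 / ε⌉₊ := ⟨_, rfl⟩
  have hT1 : 2 / ε ≤ (T : ℝ) := hT ▸ Nat.le_ceil _
  have hT0 : 0 < (T : ℝ) := lt_of_lt_of_le (by positivity) hT1
  have hTn : 0 < T := by exact_mod_cast hT0
  refine ⟨2 * H * T, 8 * T * H, fun p hp hp0 => ?_⟩
  obtain ⟨N, hN⟩ := hp
  have hH0 : 0 < H := by omega
  refine ⟨(N + 1) / H, (N + 1) % H, (N + 1) / H - (N + 1) / H / T, (N + 1) / H / T, ?_, ?_, ?_, ?_,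
    ?_⟩
  · rw [Nat.div_add_mod]
    omega
  · exact le_of_eq (Nat.sub_add_cancel (Nat.div_le_self _ _))
  all_goals
    set q := (N + 1) / H with hq
    have hqT : T ≤ q := by
      rw [hq, Nat.le_div_iff_mul_le hH0]
      have : 2 * (T * H) = 2 * H * T := by ring
      omega
    set L := q / T with hL
  · exact (Nat.le_div_iff_mul_le hTn).2 (by rwa [one_mul])
  · have hL1 : 1 ≤ L := (Nat.le_div_iff_mul_le hTn).2 (by rwa [one_mul])
    have h1 : N + 1 < (q + 1) * H := by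
      rw [hq]
      exact lt_smul _ hH0
    have h2 : q < (L + 1) * T := by
      rw [hL]
      exact lt_smul _ hTn
    have h3 : (L + 1) * T ≤ 2 * L * T := Nat.mul_le_mul_right _ (by omega)
    have h4 : (q + 1) * H ≤ 2 * q * H := Nat.mul_le_mul_right _ (by omega)
    have h5 : 2 * q * H ≤ 2 * (2 * L * T) * H :=
      Nat.mul_le_mul_right _ (Nat.mul_le_mul_left _ (h2.le.trans h3))
    have h6 : 2 * (2 * (2 * L * T) * H) = 8 * T * H * L := by ring
    omega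
  · have h1 : N + 1 < (q + 1) * H := by
      rw [hq]
      exact lt_smul _ hH0
    have hLq : L ≤ q := Nat.div_le_self _ _
    rw [Nat.cast_sub hLq]
    have hHr : (0 : ℝ) < H := by exact_mod_cast hH0
    have h2 : (p : ℝ) ≤ 2 * (q + 1) * H := by
      have : p ≤ 2 * ((q + 1) * H) := by omega
      have h3 : (p : ℝ) ≤ ((2 * ((q + 1) * H) : ℕ) : ℝ) := by exact_mod_cast this
      push_cast at h3
      linarith
    have h3 : (L : ℝ) * T ≤ q := by
      have : L * T ≤ q := Nat.div_mul_le_self _ _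
      exact_mod_cast this
    have h4 : 2 ≤ ε * T := by
      rw [div_le_iff₀ hε] at hT1
      linarith
    have h5 : (2 * H * T : ℝ) ≤ p := by exact_mod_cast hp0
    -- L ≤ ε q / 2
    have hq0 : (0 : ℝ) ≤ q := Nat.cast_nonneg _
    have hL0 : (0 : ℝ) ≤ L := Nat.cast_nonneg _
    have h6 : (L : ℝ) ≤ ε / 2 * q := by
      have h7 : (L : ℝ) * 2 ≤ L * (ε * T) := mul_le_mul_of_nonneg_left h4 hL0
      have h8 : ε * ((L : ℝ) * T) ≤ ε * q := mul_le_mul_of_nonneg_left h3 hε.le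
      nlinarith
    have h7 : (p : ℝ) / (2 * H) ≤ q + 1 := by
      rw [div_le_iff₀ (by positivity)]
      linarith
    have h8 : (T : ℝ) ≤ p / (2 * H) := by
      rw [le_div_iff₀ (by positivity)]
      linarith
    have h9 : (1 - ε) / (2 * H) * p = (1 - ε) * (p / (2 * H)) := by ring
    rw [h9]
    set y := (p : ℝ) / (2 * H) with hy
    have h10 : (y - 1) * (1 - ε / 2) ≤ q * (1 - ε / 2) :=
      mul_le_mul_of_nonneg_right (by linarith) (by linarith)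
    have h11 : 2 ≤ ε * y := h4.trans (mul_le_mul_of_nonneg_left h8 hε.le)
    nlinarith

/-- the constants -/
def CC (D : ℕ) : ℕ → ℕ
  | 0 => 0
  | n + 1 => (4 * CC D n + 2) * D ^ 2 + 1 + CC D n

theorem fam_ind (hstep : HasFamStepStm) {H : ℕ} {t nu : ℕ → ℕ} (hH : 2 ≤ H)
    (hnu : ∀ b ≤ H, ∀ a₁ a₂, a₁ + a₂ ≤ b → t a₁ + t a₂ ≤ nu b) (ε : ℝ) (hε1 : ε < 1) (p₀ D : ℕ)
    (hpar : ∀ p : ℕ, Odd p → p₀ ≤ p → ∃ q e r L : ℕ, p + 1 = 2 * (H * q + e) ∧ r + L ≤ q ∧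
      1 ≤ L ∧ p ≤ D * L ∧ (1 - ε) / (2 * H) * p ≤ (r : ℝ)) (X : ℕ) (f : ℕ → ℕ) (n : ℕ)
    (hf : ∀ i < n, Odd (f i) ∧ p₀ ≤ f i ∧ f i ≤ X)
    (hc : ∀ i < n, ∀ j < n, i ≠ j → (f i).Coprime (f j)) :
    ∃ B w : ℕ, B ≤ CC D n * X ^ 2 ∧
      ((1 - ε) / (2 * H)) ^ n * ((∏ i ∈ range n, f i : ℕ) : ℝ) ≤ w ∧
      Odd (∏ i ∈ range n, f i) ∧ HasFam H t nu n (∏ i ∈ range n, f i) B w := by
  induction n with
  | zero =>
    refine ⟨0, 1, le_rfl.trans (Nat.zero_le _), ?_, ?_, ?_⟩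
    · simp
    · simp
    · simpa using base H t nu
  | succ n ih =>
    obtain ⟨B, w, hB, hw, hodd, hfam⟩ := ih (fun i hi => hf i (by omega))
      (fun i hi j hj hij => hc i (by omega) j (by omega) hij)
    obtain ⟨ho, hp0, hpX⟩ := hf n (Nat.lt_succ_self n)
    obtain ⟨q, e, r, L, h1, h2, h3, h4, h5⟩ := hpar (f n) ho hp0
    have hcop : (f n).Coprime (∏ i ∈ range n, f i) := by
      refine Nat.Coprime.prod_right fun i hi => ?_
      have hi' := mem_range.1 hi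
      exact hc n (Nat.lt_succ_self n) i (by omega) (by omega)
    have hL2 : 0 < L ^ 2 := Nat.pow_pos h3
    have hA : 4 * B + 2 ≤ ((4 * B + 2) / L ^ 2 + 1) * L ^ 2 := by
      exact (lt_smul _ hL2).le
    have hnew := hstep H t nu n (∏ i ∈ range n, f i) B w (f n) q e r L ((4 * B + 2) / L ^ 2 + 1)
      hodd ho hcop hH hnu h1 h2 h3 hA hfam
    refine ⟨((4 * B + 2) / L ^ 2 + 1) * f n ^ 2 + B, r * w, ?_, ?_, ?_, ?_⟩
    · have hX1 : 1 ≤ X := ho.pos.trans_le hpX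
      have hX2 : 1 ≤ X ^ 2 := Nat.one_le_pow _ _ hX1
      have k1 : f n ^ 2 ≤ (D * L) ^ 2 := Nat.pow_le_pow_left h4 2
      have k2 : f n ^ 2 ≤ X ^ 2 := Nat.pow_le_pow_left hpX 2
      have k3 : (4 * B + 2) / L ^ 2 * L ^ 2 ≤ 4 * B + 2 := Nat.div_mul_le_self _ _
      have k4 : (4 * B + 2) / L ^ 2 * f n ^ 2 ≤ (4 * B + 2) * D ^ 2 := by
        calc (4 * B + 2) / L ^ 2 * f n ^ 2 ≤ (4 * B + 2) / L ^ 2 * (D * L) ^ 2 :=
              Nat.mul_le_mul_left _ k1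
          _ = ((4 * B + 2) / L ^ 2 * L ^ 2) * D ^ 2 := by ring
          _ ≤ (4 * B + 2) * D ^ 2 := Nat.mul_le_mul_right _ k3
      have k5 : 4 * B + 2 ≤ (4 * CC D n + 2) * X ^ 2 := by nlinarith
      have k6 : (4 * B + 2) * D ^ 2 ≤ (4 * CC D n + 2) * X ^ 2 * D ^ 2 :=
        Nat.mul_le_mul_right _ k5
      have k7 : CC D (n + 1) * X ^ 2 = (4 * CC D n + 2) * X ^ 2 * D ^ 2 + X ^ 2 + CC D n * X ^ 2 := by
        rw [CC]
        ring
      rw [k7, add_mul, one_mul]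
      exact Nat.add_le_add (Nat.add_le_add (k4.trans k6) k2) hB
    · rw [prod_range_succ]
      push_cast
      push_cast at hw
      have hε0 : 0 ≤ (1 - ε) / (2 * H) := by
        have : (0 : ℝ) < H := by
          have : 0 < H := by omega
          exact_mod_cast this
        apply div_nonneg
        · linarith
        · linarith
      calc ((1 - ε) / (2 * H)) ^ (n + 1) * ((∏ i ∈ range n, (f i : ℝ)) * (f n : ℝ))
          = ((1 - ε) / (2 * H) * (f n : ℝ)) *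
              (((1 - ε) / (2 * H)) ^ n * ∏ i ∈ range n, (f i : ℝ)) := by
            rw [pow_succ]
            ring
        _ ≤ (r : ℝ) * w := mul_le_mul h5 hw (by positivity) (Nat.cast_nonneg _)
    · rw [prod_range_succ]
      exact hodd.mul ho
    · rw [prod_range_succ_comm]
      exact hnew

theorem block (h : HasFamStepStm) : BlockStm := by
  intro H t nu k z Rn Rd C c hH hcert hRn hRd hc hclt
  have hHr : (0 : ℝ) < H := by
    have : 0 < H := by omega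
    exact_mod_cast this
  have hRnr : (0 : ℝ) < Rn := by exact_mod_cast hRn
  have hRdr : (0 : ℝ) < Rd := by exact_mod_cast hRd
  obtain ⟨hC1, i, hi⟩ := cert_grow hH hcert
  have hCr : (0 : ℝ) < C := by exact_mod_cast hC1
  obtain ⟨ρ, hρ⟩ : ∃ ρ : ℝ, ρ = (Rn : ℝ) / (2 * H * Rd) := ⟨_, rfl⟩
  rw [← hρ] at hclt
  have hρ0 : 0 < ρ := hc.trans hclt
  obtain ⟨ε, hε⟩ : ∃ ε : ℝ, ε = (1 - c / ρ) / 2 := ⟨_, rfl⟩
  have hcρ : c / ρ < 1 := (div_lt_one hρ0).2 hclt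
  have hcρ0 : 0 < c / ρ := div_pos hc hρ0
  have hε0 : 0 < ε := by rw [hε]; linarith
  have hε1 : ε < 1 := by rw [hε]; linarith
  obtain ⟨p₀, D, hpar⟩ := par_exists H hH ε hε0 hε1
  -- choice of m
  have hc' : c < (1 - ε) * ρ := by
    have : (1 - ε) * ρ = (ρ + c) / 2 := by
      rw [hε]
      field_simp
      ring
    rw [this]
    linarith
  obtain ⟨m, hm⟩ := pow_unbounded_of_one_lt (C * c ^ 3 / ((1 - ε) / (2 * H)) ^ 3)
    ((one_lt_div hc).2 hc')
  have hs0 : 0 < (1 - ε) / (2 * H) := by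
    apply div_pos
    · linarith
    · linarith
  have hmain : c ^ (3 + m) * (Rd ^ m * C) ≤ ((1 - ε) / (2 * H)) ^ (3 + m) * Rn ^ m := by
    have h1 : C * c ^ 3 ≤ ((1 - ε) * ρ / c) ^ m * ((1 - ε) / (2 * H)) ^ 3 :=
      ((div_lt_iff₀ (by positivity)).1 hm).le
    have h2 : (1 - ε) * ρ = (1 - ε) / (2 * H) * Rn / Rd := by
      rw [hρ]
      field_simp
    have h3 : c ^ m * ((1 - ε) * ρ / c) ^ m = ((1 - ε) / (2 * H)) ^ m * (Rn ^ m / Rd ^ m) := by
      rw [← mul_pow, mul_div_cancel₀ _ hc.ne', h2, div_pow, mul_pow]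
      ring
    have h4 := mul_le_mul_of_nonneg_left h1 (pow_pos hc m).le
    have h5 : c ^ m * (((1 - ε) * ρ / c) ^ m * ((1 - ε) / (2 * H)) ^ 3) =
        ((1 - ε) / (2 * H)) ^ (3 + m) * (Rn ^ m / Rd ^ m) := by
      rw [← mul_assoc, h3, pow_add]
      ring
    rw [h5] at h4
    have h6 := mul_le_mul_of_nonneg_left h4 (pow_pos hRdr m).le
    have h7 : (Rd : ℝ) ^ m * (((1 - ε) / (2 * H)) ^ (3 + m) * (Rn ^ m / Rd ^ m)) =
        ((1 - ε) / (2 * H)) ^ (3 + m) * Rn ^ m := by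
      field_simp
    rw [h7] at h6
    calc c ^ (3 + m) * (Rd ^ m * C) = (Rd : ℝ) ^ m * (c ^ m * (C * c ^ 3)) := by
          rw [pow_add]
          ring
      _ ≤ _ := h6
  refine ⟨3 + m, CC D (3 + m), p₀, by omega, fun X f hf hcop => ?_⟩
  obtain ⟨B, w, hB, hw, -, F, hF, -⟩ := fam_ind h hH hcert.hnu ε hε1 p₀ D hpar X f (3 + m) hf hcop
  refine ⟨F.K i, pot_mono (F.hK i) hB, ?_⟩
  have h1 : (w : ℝ) * (kz H t nu (3 + m)).1 i ≤ (F.K i).card := by exact_mod_cast hF i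
  have h2 : (Rn : ℝ) ^ m ≤ Rd ^ m * C * (kz H t nu (3 + m)).1 i := by exact_mod_cast hi m
  set M : ℝ := ((∏ i ∈ range (3 + m), f i : ℕ) : ℝ) with hM
  have hM0 : 0 ≤ M := Nat.cast_nonneg _
  have hw0 : (0 : ℝ) ≤ w := Nat.cast_nonneg _
  have h3 : c ^ (3 + m) * M * (Rd ^ m * C) ≤ (F.K i).card * (Rd ^ m * C) := by
    calc c ^ (3 + m) * M * (Rd ^ m * C) = c ^ (3 + m) * (Rd ^ m * C) * M := by ring
      _ ≤ ((1 - ε) / (2 * H)) ^ (3 + m) * Rn ^ m * M := mul_le_mul_of_nonneg_right hmain hM0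
      _ = ((1 - ε) / (2 * H)) ^ (3 + m) * M * Rn ^ m := by ring
      _ ≤ w * Rn ^ m := mul_le_mul_of_nonneg_right hw (by positivity)
      _ ≤ w * (Rd ^ m * C * (kz H t nu (3 + m)).1 i) := mul_le_mul_of_nonneg_left h2 hw0
      _ = w * (kz H t nu (3 + m)).1 i * (Rd ^ m * C) := by ring
      _ ≤ (F.K i).card * (Rd ^ m * C) := mul_le_mul_of_nonneg_right h1 (by positivity)
  exact le_of_mul_le_mul_right h3 (by positivity)

end Pool.Agent.W338.RB
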